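import Pool.Agent.Helper62.DSH.StC

set_option autoImplicit false

open Set Filter Topology MeasureTheory
open Helper62.LH Helper62.DSH
open scoped ContDiff ENNReal

noncomputable section

namespace Pool.Agent.Helper39.DSH

theorem hInv : TInv := by
  classical
  intro n A hA L
  set M : Matrix (Fin n) (Fin n) ℝ := Matrix.of fun k j => if j = L k then 1 else 0 with hM
  have hadj : ∀ k l, vdet (fun i => (ee (Function.update L k l i) : E n)) = M.adjugate l k := by
    intro k l
    rw [Matrix.adjugate_apply]
    unfold vdet
    congr 1
    ext i j
    rw [Matrix.of_apply]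
    by_cases hik : i = k
    · subst hik
      rw [Matrix.updateRow_self]
      beta_reduce
      rw [Function.update_self]
      simp only [ee]
      by_cases hjl : j = l
      · subst hjl; simp
      · simp [hjl]
    · have hu : Function.update L k l i = L i := Function.update_of_ne hik _ _
      rw [Matrix.updateRow_ne hik]
      show (ee (Function.update L k l i) : E n) j = M i j
      rw [hu]
      simp only [ee, hM, Matrix.of_apply]
      by_cases hjl : j = L i
      · rw [if_pos hjl, hjl]; simp
      · rw [if_neg hjl]; simp [hjl]
  have hMA : ∀ k l, A (L k) l = (M * (Matrix.of A)) k l := by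
    intro k l
    rw [Matrix.mul_apply]
    simp [hM]
  have h1 : ∑ k, ∑ l, A (L k) l * vdet (fun i => (ee (Function.update L k l i) : E n)) =
      Matrix.trace ((M * (Matrix.of A)) * M.adjugate) := by
    unfold Matrix.trace
    refine Finset.sum_congr rfl fun k _ => ?_
    rw [Matrix.diag_apply, Matrix.mul_apply]
    refine Finset.sum_congr rfl fun l _ => ?_
    rw [hadj, hMA]
  rw [h1, Matrix.trace_mul_comm, ← Matrix.mul_assoc, Matrix.adjugate_mul, Matrix.smul_mul, Matrix.one_mul,
    Matrix.trace_smul]
  have h2 : Matrix.trace (Matrix.of A) = 0 := by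
    unfold Matrix.trace
    refine Finset.sum_eq_zero fun k _ => ?_
    have := hA k k
    rw [Matrix.diag_apply, Matrix.of_apply]
    linarith
  rw [h2, smul_zero]

end Pool.Agent.Helper39.DSH

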